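import Pool.Agent.W785.EN.Defs

/-!
# Elastic flow of planar networks: statements of the parts
-/

set_option autoImplicit false

open Set Filter Topology
open scoped ContDiff

namespace Pool.Agent.W785.EN

/-- The system of the travelling drop on `[-S, S]`. `φ` is the angle of the tangent, `k` the
curvature, `(Z, -W)` the vector `2 k' ν + (k ^ 2 - μ) τ`, `(x, y)` the position, arclength is the
variable. The drop moves with velocity `(0, c)`. -/
structure Sol (c μ S : ℝ) (φ k W Z x y : ℝ → ℝ) : Prop where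
  φ0 : φ 0 = 0
  k0 : k 0 = 1
  W0 : W 0 = 0
  Z0 : Z 0 = 1 - μ
  x0 : x 0 = 0
  y0 : y 0 = 0
  dφ : ∀ s, |s| ≤ S → HasDerivAt φ (k s) s
  dk : ∀ s, |s| ≤ S →
    HasDerivAt k (-(Z s * Real.sin (φ s) + W s * Real.cos (φ s)) / 2) s
  dW : ∀ s, |s| ≤ S → HasDerivAt W (c * Real.cos (φ s) ^ 2) s
  dZ : ∀ s, |s| ≤ S → HasDerivAt Z (c * (Real.sin (φ s) * Real.cos (φ s))) s
  dx : ∀ s, |s| ≤ S → HasDerivAt x (Real.cos (φ s)) s
  dy : ∀ s, |s| ≤ S → HasDerivAt y (Real.sin (φ s)) s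

/-- FLOW: existence, Lipschitz dependence on `μ`. -/
def S_flow : Prop :=
  ∀ c S : ℝ, 0 ≤ c → 0 < S → c * S ≤ 1 / 2 →
    ∃ φ k W Z x y : ℝ → ℝ → ℝ,
      (∀ μ ∈ Icc (0 : ℝ) 1, Sol c μ S (φ μ) (k μ) (W μ) (Z μ) (x μ) (y μ)) ∧
      ∃ L : ℝ, 0 ≤ L ∧ ∀ μ ∈ Icc (0 : ℝ) 1, ∀ μ' ∈ Icc (0 : ℝ) 1, ∀ s, |s| ≤ S →
        |k μ s - k μ' s| ≤ L * |μ - μ'| ∧ |x μ s - x μ' s| ≤ L * |μ - μ'|

/-- SYM: a solution is symmetric. -/
def S_sym : Prop :=
  ∀ (c μ S : ℝ) (φ k W Z x y : ℝ → ℝ), 0 < S → Sol c μ S φ k W Z x y → ∀ s, |s| ≤ S →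
    φ (-s) = -φ s ∧ k (-s) = k s ∧ W (-s) = -W s ∧ Z (-s) = Z s ∧ x (-s) = -x s ∧ y (-s) = y s

/-- SMOOTH: a solution is smooth. -/
def S_smooth : Prop :=
  ∀ (c μ S : ℝ) (φ k W Z x y : ℝ → ℝ), 0 < S → Sol c μ S φ k W Z x y →
    ContDiffOn ℝ ∞ φ (Icc (-S) S) ∧ ContDiffOn ℝ ∞ x (Icc (-S) S) ∧
      ContDiffOn ℝ ∞ y (Icc (-S) S)

/-- A closed drop: `l` is the half length. -/
structure Drop (c μ S l : ℝ) (φ k W Z x y : ℝ → ℝ) : Prop where
  sol : Sol c μ S φ k W Z x y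
  c_pos : 0 < c
  μ_pos : 0 < μ
  l_pos : 0 < l
  l_lt : l < S
  k_l : k l = 0
  x_l : x l = 0
  W_l : 0 < W l
  cos_l : Real.cos (φ l) ≠ 0

/-- EX: there is a drop (shooting in `μ`). -/
def S_drop : Prop :=
  ∃ (c μ S l : ℝ) (φ k W Z x y : ℝ → ℝ), Drop c μ S l φ k W Z x y

/-- The network of the drop: curve `0` is the loop, both ends at the vertex `0`, curve `1` is the
segment from the vertex `0` to the vertex `1`. -/
def lolly : NetType 2 2 where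
  vert := fun i b => if i = 1 ∧ b = 1 then 1 else 0
  kind := fun v => if v = 0 then Kind.junction else Kind.navier

/-- The two curves of the travelling drop. -/
noncomputable def dropCurve (c T l : ℝ) (x y : ℝ → ℝ) (i : Fin 2) (t r : ℝ) : ℂ :=
  if i = 0 then ⟨x (l * (2 * r - 1)), y (l * (2 * r - 1)) + c * t⟩
  else ⟨x l, y l + c * t + r * (c * (T - t))⟩

/-- FLOWEQ: the drop is a solution of the elastic flow. -/
def S_build : Prop :=
  S_sym → S_smooth → ∀ (c μ S l : ℝ) (φ k W Z x y : ℝ → ℝ), Drop c μ S l φ k W Z x y →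
    ∀ T : ℝ, 0 < T →
      IsElasticFlow lolly (fun i => if i = 0 then μ else 2 * W l) T (dropCurve c T l x y)

/-- LEN: length of the segment. -/
def S_len : Prop :=
  ∀ (c T l : ℝ) (x y : ℝ → ℝ), 0 < c → ∀ t < T, length (dropCurve c T l x y 1 t) = c * (T - t)

/-- NOEXT: lengths of the curves of a solution do not tend to zero inside its interval of
existence. -/
def S_noext : Prop :=
  ∀ (N M : ℕ) (G : NetType N M) (μ : Fin N → ℝ) (T T' : ℝ) (γ : Fin N → ℝ → ℝ → ℂ),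
    0 < T → T < T' → IsElasticFlow G μ T' γ → ∀ i,
      ¬ Tendsto (fun t => length (γ i t)) (𝓝[<] T) (𝓝 0)

end Pool.Agent.W785.EN
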