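import Pool.Agent.W785.EN.Fin
import Pool.Agent.W753.EN.Build
import Pool.Agent.W753.EN.Noext

set_option autoImplicit false

open Set Filter Topology

namespace Pool.Agent.W785.EN

theorem main (T : ℝ) (hT : 0 < T) :
    ∃ (N M : ℕ) (G : NetType N M) (μ : Fin N → ℝ) (γ : Fin N → ℝ → ℝ → ℂ) (i : Fin N),
      (∀ v, G.kind v ≠ Kind.clamped) ∧ (∀ j, 0 < μ j) ∧ IsElasticFlow G μ T γ ∧
      (∃ c > 0, ∀ t ∈ Ico 0 T, length (γ i t) = c * (T - t)) ∧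
      Tendsto (fun t => length (γ i t)) (𝓝[<] T) (𝓝 0) ∧
      ∀ T' > T, ∀ γ' : Fin N → ℝ → ℝ → ℂ, IsElasticFlow G μ T' γ' →
        ¬ ∀ t ∈ Ico 0 T, length (γ' i t) = length (γ i t) :=
  main_of Pool.Agent.W753.EN.Build.main.1 Pool.Agent.W753.EN.Build.main.2
    Pool.Agent.W753.EN.Noext.main T hT

end Pool.Agent.W785.EN
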