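import Mathlib

/-!
# Elastic flow of planar networks: definitions

The plane is `ℂ`. A curve is a map `γ : ℝ → ℂ` of which only the values on `[0, 1]` matter; all
derivatives are taken within `[0, 1]` (one-sided at the end points).
-/

set_option autoImplicit false

open Set Filter Topology
open scoped ContDiff

namespace Pool.Agent.W785.EN

/-- The derivative of `f` with respect to the arclength of the curve `γ`, on `[0, 1]`. -/
noncomputable def dS {E : Type*} [NormedAddCommGroup E] [NormedSpace ℝ E] (γ : ℝ → ℂ)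
    (f : ℝ → E) (x : ℝ) : E :=
  ‖derivWithin γ (Icc 0 1) x‖⁻¹ • derivWithin f (Icc 0 1) x

/-- The unit tangent `τ`. -/
noncomputable def tau (γ : ℝ → ℂ) : ℝ → ℂ := dS γ γ

/-- The unit normal `ν`: the tangent rotated counterclockwise by `π / 2`. -/
noncomputable def nu (γ : ℝ → ℂ) (x : ℝ) : ℂ := Complex.I * tau γ x

/-- The real inner product of the plane. -/
def dot (z w : ℂ) : ℝ := z.re * w.re + z.im * w.im

/-- The oriented curvature `k = ⟨∂_s τ, ν⟩`. -/
noncomputable def curv (γ : ℝ → ℂ) (x : ℝ) : ℝ := dot (dS γ (tau γ) x) (nu γ x)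

/-- The length of the curve. -/
noncomputable def length (γ : ℝ → ℂ) : ℝ := ∫ x in (0 : ℝ)..1, ‖derivWithin γ (Icc 0 1) x‖

/-- The vector `2 (∂_s k) ν + (k ^ 2 - μ) τ`. In the first variation of `∫ k ^ 2 ds + μ length` the
end point `x = 1` contributes `- ⟨stress, ψ⟩` and the end point `x = 0` contributes
`⟨stress, ψ⟩` (besides the terms with `2 k ⟨∂_s ψ, ν⟩`), `ψ` the variation. -/
noncomputable def stress (μ : ℝ) (γ : ℝ → ℂ) (x : ℝ) : ℂ :=
  (2 * dS γ (curv γ) x : ℝ) • nu γ x + (curv γ x ^ 2 - μ : ℝ) • tau γ x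

/-- The three kinds of vertices of a network: `junction` is a junction with natural conditions, it
may move; `navier` is a fixed end point of order one with natural (Navier) conditions; `clamped` is
a junction or a fixed end point with clamped conditions. -/
inductive Kind : Type
  | junction
  | navier
  | clamped

/-- The combinatorial type of a network with `N` curves and `M` vertices: the end `b` (`b = 0` is the
parameter `x = 0`, `b = 1` is the parameter `x = 1`) of the curve `i` is at the vertex `vert i b`. -/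
structure NetType (N M : ℕ) where
  vert : Fin N → Fin 2 → Fin M
  kind : Fin M → Kind

/-- The number of ends of curves at the vertex `v`. -/
def NetType.order {N M : ℕ} (G : NetType N M) (v : Fin M) : ℕ :=
  (Finset.univ.filter fun e : Fin N × Fin 2 => G.vert e.1 e.2 = v).card

/-- `γ i t` (`i` a curve, `t ∈ [0, T)`) is a smooth solution of the elastic flow of networks of the
combinatorial type `G` with weights `μ`. -/
structure IsElasticFlow {N M : ℕ} (G : NetType N M) (μ : Fin N → ℝ) (T : ℝ)
    (γ : Fin N → ℝ → ℝ → ℂ) : Prop where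
  /-- a junction has order at least two -/
  order_junction : ∀ v, G.kind v = Kind.junction → 2 ≤ G.order v
  /-- a fixed end point has order one -/
  order_navier : ∀ v, G.kind v = Kind.navier → G.order v = 1
  /-- the family is smooth up to the boundary and up to the time `0` -/
  smooth : ∀ i, ContDiffOn ℝ ∞ (fun p : ℝ × ℝ => γ i p.1 p.2) (Ico 0 T ×ˢ Icc 0 1)
  /-- the curves are regular -/
  regular : ∀ i, ∀ t ∈ Ico 0 T, ∀ x ∈ Icc (0 : ℝ) 1, derivWithin (γ i t) (Icc 0 1) x ≠ 0
  /-- the network is connected -/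
  connected : ∀ t ∈ Ico 0 T, IsConnected (⋃ i, γ i t '' Icc 0 1)
  /-- the curves which have an end at the same vertex are concurrent there -/
  concurrent : ∀ t ∈ Ico 0 T, ∀ i j b d, G.vert i b = G.vert j d →
    γ i t (b : ℕ) = γ j t (d : ℕ)
  /-- the normal velocity is `- 2 ∂_s² k - k ^ 3 + μ k` -/
  flow : ∀ i, ∀ t ∈ Ico 0 T, ∀ x ∈ Icc (0 : ℝ) 1,
    dot (derivWithin (fun r => γ i r x) (Ico 0 T) t) (nu (γ i t) x) =
      - 2 * dS (γ i t) (dS (γ i t) (curv (γ i t))) x - curv (γ i t) x ^ 3 + μ i * curv (γ i t) x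
  /-- natural conditions: the curvature vanishes at the ends ... -/
  natural_curv : ∀ t ∈ Ico 0 T, ∀ i b, G.kind (G.vert i b) ≠ Kind.clamped →
    curv (γ i t) (b : ℕ) = 0
  /-- ... and at a junction the sum of the vectors `± stress` is zero -/
  natural_force : ∀ t ∈ Ico 0 T, ∀ v, G.kind v = Kind.junction →
    ∑ e : Fin N × Fin 2, (if G.vert e.1 e.2 = v then
      (2 * ((e.2 : ℕ) : ℝ) - 1) • stress (μ e.1) (γ e.1 t) (e.2 : ℕ) else 0) = 0
  /-- a junction with natural conditions is not degenerate: the tangents of the curves at it are not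
  all parallel -/
  nondegenerate : ∀ t ∈ Ico 0 T, ∀ v, G.kind v = Kind.junction →
    ∃ i j b d, G.vert i b = v ∧ G.vert j d = v ∧
      dot (tau (γ i t) (b : ℕ)) (nu (γ j t) (d : ℕ)) ≠ 0
  /-- fixed end points and clamped vertices do not move -/
  fixed : ∀ t ∈ Ico 0 T, ∀ i b, G.kind (G.vert i b) ≠ Kind.junction →
    γ i t (b : ℕ) = γ i 0 (b : ℕ)
  /-- at clamped vertices the unit tangents do not move -/
  clamped : ∀ t ∈ Ico 0 T, ∀ i b, G.kind (G.vert i b) = Kind.clamped →
    tau (γ i t) (b : ℕ) = tau (γ i 0) (b : ℕ)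

end Pool.Agent.W785.EN
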