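import Pool.Agent.W785.EN.Stms

/-!
# Elastic flow of planar networks: a priori estimates for the drop system
-/

set_option autoImplicit false

open Set Filter Topology Real

namespace Pool.Agent.W785.EN

theorem mono {f f' : ℝ → ℝ} {a b : ℝ} (h : ∀ s ∈ Icc a b, HasDerivAt f (f' s) s)
    (hn : ∀ s ∈ Ioo a b, 0 ≤ f' s) : MonotoneOn f (Icc a b) := by
  apply monotoneOn_of_hasDerivWithinAt_nonneg (convex_Icc a b) (f' := f')
  · exact fun s hs => (h s hs).continuousAt.continuousWithinAt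
  · rw [interior_Icc]
    exact fun s hs => (h s (Ioo_subset_Icc_self hs)).hasDerivWithinAt
  · rwa [interior_Icc]

variable {c μ S : ℝ} {φ k W Z x y : ℝ → ℝ}

theorem abs_le_of {s : ℝ} (h0 : 0 ≤ s) (h1 : s ≤ S) : |s| ≤ S := by rwa [abs_of_nonneg h0]

/-- bounds for `W` -/
theorem W_bd (h : Sol c μ S φ k W Z x y) (hc : 0 ≤ c) {s : ℝ} (h0 : 0 ≤ s) (h1 : s ≤ S) :
    0 ≤ W s ∧ W s ≤ c * s := by
  have key : ∀ r ∈ Icc 0 s, |r| ≤ S := fun r hr => abs_le_of hr.1 (hr.2.trans h1)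
  constructor
  · have := mono (a := 0) (b := s) (fun r hr => h.dW r (key r hr))
      (fun r _ => mul_nonneg hc (sq_nonneg _)) (left_mem_Icc.2 h0) (right_mem_Icc.2 h0) h0
    rwa [h.W0] at this
  · have := mono (a := 0) (b := s) (f := fun r => c * r - W r)
      (f' := fun r => c * 1 - c * cos (φ r) ^ 2)
      (fun r hr => ((hasDerivAt_id r).const_mul c).sub (h.dW r (key r hr)))
      (fun r _ => by nlinarith [mul_nonneg hc (sub_nonneg.2 (cos_sq_le_one (φ r)))])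
      (left_mem_Icc.2 h0) (right_mem_Icc.2 h0) h0
    simp only [h.W0] at this
    linarith

/-- bounds for `Z` -/
theorem Z_bd (h : Sol c μ S φ k W Z x y) (hc : 0 ≤ c) {s : ℝ} (h0 : 0 ≤ s) (h1 : s ≤ S) :
    1 - μ - c * s ≤ Z s ∧ Z s ≤ 1 - μ + c * s := by
  have key : ∀ r ∈ Icc 0 s, |r| ≤ S := fun r hr => abs_le_of hr.1 (hr.2.trans h1)
  have hb : ∀ r, |sin (φ r) * cos (φ r)| ≤ 1 := fun r => by
    rw [abs_mul]
    calc _ ≤ (1 : ℝ) * 1 := mul_le_mul (abs_sin_le_one _) (abs_cos_le_one _) (abs_nonneg _) one_pos.le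
      _ = 1 := one_mul 1
  constructor
  · have := mono (a := 0) (b := s) (f := fun r => Z r + c * r)
      (f' := fun r => c * (sin (φ r) * cos (φ r)) + c * 1)
      (fun r hr => (h.dZ r (key r hr)).add ((hasDerivAt_id r).const_mul c))
      (fun r _ => by
        have := (abs_le.1 (hb r)).1
        nlinarith [mul_nonneg hc (by linarith : 0 ≤ sin (φ r) * cos (φ r) + 1)])
      (left_mem_Icc.2 h0) (right_mem_Icc.2 h0) h0
    simp only [h.Z0] at this
    linarith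
  · have := mono (a := 0) (b := s) (f := fun r => c * r - Z r)
      (f' := fun r => c * 1 - c * (sin (φ r) * cos (φ r)))
      (fun r hr => ((hasDerivAt_id r).const_mul c).sub (h.dZ r (key r hr)))
      (fun r _ => by
        have := (abs_le.1 (hb r)).2
        nlinarith [mul_nonneg hc (by linarith : 0 ≤ 1 - sin (φ r) * cos (φ r))])
      (left_mem_Icc.2 h0) (right_mem_Icc.2 h0) h0
    simp only [h.Z0] at this
    linarith

/-- energy identity -/
theorem energy (h : Sol c μ S φ k W Z x y) {s : ℝ} (h0 : 0 ≤ s) (h1 : s ≤ S) :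
    k s ^ 2 = μ + Z s * cos (φ s) - W s * sin (φ s) := by
  have key : ∀ r ∈ Icc 0 s, |r| ≤ S := fun r hr => abs_le_of hr.1 (hr.2.trans h1)
  have hd : ∀ r ∈ Icc 0 s,
      HasDerivAt (fun r => k r ^ 2 - (Z r * cos (φ r) - W r * sin (φ r))) 0 r := by
    intro r hr
    have hk := h.dk r (key r hr)
    have hφ := h.dφ r (key r hr)
    have hW := h.dW r (key r hr)
    have hZ := h.dZ r (key r hr)
    have h2 := (hk.pow 2).sub ((hZ.mul hφ.cos).sub (hW.mul hφ.sin))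
    refine h2.congr_deriv ?_
    simp only [Nat.cast_ofNat]
    ring
  have e1 := mono (f' := fun _ => 0) hd (fun _ _ => le_rfl) (left_mem_Icc.2 h0)
    (right_mem_Icc.2 h0) h0
  have e2 := mono (f := fun r => -(k r ^ 2 - (Z r * cos (φ r) - W r * sin (φ r))))
    (f' := fun _ => 0) (fun r hr => (hd r hr).neg.congr_deriv neg_zero) (fun _ _ => le_rfl)
    (left_mem_Icc.2 h0) (right_mem_Icc.2 h0) h0
  simp only [h.k0, h.φ0, h.Z0, h.W0, cos_zero, sin_zero] at e1 e2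
  linarith

/-- as long as the curvature is positive the angle is in `[0, π)` -/
theorem phi_bd (h : Sol c μ S φ k W Z x y) (hc : 0 ≤ c) (hμ : 2 * μ + c * S < 1) {s : ℝ}
    (h0 : 0 ≤ s) (h1 : s ≤ S) (hk : ∀ r ∈ Ico 0 s, 0 < k r) : 0 ≤ φ s ∧ φ s < π := by
  have key : ∀ r ∈ Icc 0 s, |r| ≤ S := fun r hr => abs_le_of hr.1 (hr.2.trans h1)
  have hm := mono (a := 0) (b := s) (fun r hr => h.dφ r (key r hr))
    (fun r hr => (hk r ⟨hr.1.le, hr.2⟩).le)
  have e0 := hm (left_mem_Icc.2 h0) (right_mem_Icc.2 h0) h0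
  rw [h.φ0] at e0
  refine ⟨e0, ?_⟩
  by_contra hcon
  push Not at hcon
  have hcont : ContinuousOn φ (Icc 0 s) := fun r hr =>
    (h.dφ r (key r hr)).continuousAt.continuousWithinAt
  obtain ⟨r, hr, hrπ⟩ := intermediate_value_Icc h0 hcont
    (show π ∈ Icc (φ 0) (φ s) from ⟨by rw [h.φ0]; exact pi_pos.le, hcon⟩)
  have hE := energy h hr.1 (hr.2.trans h1)
  rw [hrπ, cos_pi, sin_pi] at hE
  have hZ := (Z_bd h hc hr.1 (hr.2.trans h1)).1
  have : c * r ≤ c * S := mul_le_mul_of_nonneg_left (hr.2.trans h1) hc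
  nlinarith [sq_nonneg (k r)]

/-- lower bounds for the sine, and sign of the derivative of the curvature -/
theorem sin_bd (h : Sol c μ S φ k W Z x y) (hc : 0 ≤ c) {κ : ℝ} (hκ : 0 < κ) (hκ1 : κ ≤ 1)
    (hμ0 : c * S ≤ μ) (hμ : 2 * μ + κ + c * S ≤ 1) {s : ℝ}
    (h0 : 0 ≤ s) (h1 : s ≤ S) (hk : ∀ r ∈ Ico 0 s, 0 < k r) (hπ : π / 2 ≤ φ s) :
    κ ≤ sin (φ s) := by
  have hcS : 0 ≤ c * S := mul_nonneg hc (h0.trans h1)
  have hcs : c * s ≤ c * S := mul_le_mul_of_nonneg_left h1 hc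
  have hcs0 : 0 ≤ c * s := mul_nonneg hc h0
  obtain ⟨p0, p1⟩ := phi_bd h hc (by linarith) h0 h1 hk
  have hE := energy h h0 h1
  obtain ⟨z1, z2⟩ := Z_bd h hc h0 h1
  obtain ⟨w1, w2⟩ := W_bd h hc h0 h1
  have hsin : 0 ≤ sin (φ s) := sin_nonneg_of_nonneg_of_le_pi p0 p1.le
  have hcos : cos (φ s) ≤ 0 := cos_nonpos_of_pi_div_two_le_of_le hπ (by linarith [pi_pos])
  have hZ1 : Z s ≤ 1 := by linarith
  have hZ0 : 0 ≤ Z s := by linarith
  -- (1 + cos) Z ≥ κ
  have e1 : κ ≤ (1 + cos (φ s)) * Z s := by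
    nlinarith [sq_nonneg (k s), mul_nonneg w1 hsin]
  have e2 : 0 ≤ 1 + cos (φ s) := by linarith [neg_one_le_cos (φ s)]
  have e3 : κ ≤ 1 + cos (φ s) := by nlinarith
  have e4 : κ ≤ sin (φ s) ^ 2 := by
    have := sin_sq_add_cos_sq (φ s)
    nlinarith
  by_contra hcon
  push Not at hcon
  nlinarith

/-- the derivative of the curvature is negative -/
theorem dk_neg (h : Sol c μ S φ k W Z x y) (hc : 0 ≤ c) {κ : ℝ} (hκ : 0 < κ) (hκ1 : κ ≤ 1)
    (hμ0 : c * S ≤ μ) (hμ : 2 * μ + κ + c * S ≤ 1) (hcS : 4 * (c * S) < κ) {s : ℝ}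
    (h0 : 0 < s) (h1 : s ≤ S) (hk : ∀ r ∈ Ico 0 s, 0 < k r) :
    0 < Z s * sin (φ s) + W s * cos (φ s) := by
  have key : ∀ r ∈ Icc 0 s, |r| ≤ S := fun r hr => abs_le_of hr.1 (hr.2.trans h1)
  have hcS0 : 0 ≤ c * S := mul_nonneg hc (h0.le.trans h1)
  have hcs : c * s ≤ c * S := mul_le_mul_of_nonneg_left h1 hc
  have hcs0 : 0 ≤ c * s := mul_nonneg hc h0.le
  obtain ⟨p0, p1⟩ := phi_bd h hc (by linarith) h0.le h1 hk
  obtain ⟨z1, z2⟩ := Z_bd h hc h0.le h1
  obtain ⟨w1, w2⟩ := W_bd h hc h0.le h1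
  have hZ0 : 1 / 4 ≤ Z s := by linarith
  -- φ s > 0
  have hφ : 0 < φ s := by
    have hsm : StrictMonoOn φ (Icc 0 s) := by
      apply strictMonoOn_of_deriv_pos (convex_Icc 0 s)
      · exact fun r hr => (h.dφ r (key r hr)).continuousAt.continuousWithinAt
      · intro r hr
        rw [interior_Icc] at hr
        rw [(h.dφ r (key r (Ioo_subset_Icc_self hr))).deriv]
        exact hk r ⟨hr.1.le, hr.2⟩
    have := hsm (left_mem_Icc.2 h0.le) (right_mem_Icc.2 h0.le) h0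
    rwa [h.φ0] at this
  rcases le_or_gt (φ s) (π / 2) with hle | hgt
  · have hs : 0 < sin (φ s) := sin_pos_of_pos_of_lt_pi hφ p1
    have hcos : 0 ≤ cos (φ s) := cos_nonneg_of_neg_pi_div_two_le_of_le (by linarith) hle
    nlinarith [mul_nonneg w1 hcos, mul_pos (by linarith : 0 < Z s) hs]
  · have hs := sin_bd h hc hκ hκ1 hμ0 hμ h0.le h1 hk hgt.le
    have e1 : W s * cos (φ s) ≥ -(c * S) := by
      have := neg_one_le_cos (φ s)
      nlinarith
    nlinarith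

end Pool.Agent.W785.EN
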