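import Pool.Agent.W785.EN.Est

/-!
# Elastic flow of planar networks: the first zero of the curvature
-/

set_option autoImplicit false

open Set Filter Topology Real

namespace Pool.Agent.W785.EN

variable {c μ S : ℝ} {φ k W Z x y : ℝ → ℝ}

/-- `k ≥ 1 - s` and `φ ≥ s - s² / 2`, `k ≤ 1` -/
theorem k_low (h : Sol c μ S φ k W Z x y) (hc : 0 ≤ c) (hμ0 : c * S ≤ μ) (hcS : c * S ≤ 1 / 2)
    (hμ1 : 2 * μ ≤ 1)
    {s : ℝ} (h0 : 0 ≤ s) (h1 : s ≤ S) : 1 - s ≤ k s ∧ s - s ^ 2 / 2 ≤ φ s := by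
  have key : ∀ r ∈ Icc 0 s, |r| ≤ S := fun r hr => abs_le_of hr.1 (hr.2.trans h1)
  have kb : ∀ r ∈ Icc 0 s, 1 - r ≤ k r := by
    intro t ht
    have := mono (a := 0) (b := t) (f := fun r => k r + r)
      (f' := fun r => -(Z r * sin (φ r) + W r * cos (φ r)) / 2 + 1)
      (fun r hr => (h.dk r (key r ⟨hr.1, hr.2.trans ht.2⟩)).add (hasDerivAt_id r))
      (fun r hr => by
        have hrS : r ≤ S := hr.2.le.trans (ht.2.trans h1)
        obtain ⟨z1, z2⟩ := Z_bd h hc hr.1.le hrS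
        obtain ⟨w1, w2⟩ := W_bd h hc hr.1.le hrS
        have : c * r ≤ c * S := mul_le_mul_of_nonneg_left hrS hc
        have e1 : Z r * sin (φ r) ≤ 1 := by
          nlinarith [sin_le_one (φ r), neg_one_le_sin (φ r)]
        have e2 : W r * cos (φ r) ≤ 1 / 2 := by
          nlinarith [cos_le_one (φ r)]
        linarith)
      (left_mem_Icc.2 ht.1) (right_mem_Icc.2 ht.1) ht.1
    simp only [h.k0] at this
    linarith
  refine ⟨kb s ⟨h0, le_rfl⟩, ?_⟩
  have := mono (a := 0) (b := s) (f := fun r => φ r - (r - r ^ 2 / 2))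
    (f' := fun r => k r - (1 - (2 * r ^ (2 - 1) * 1) / 2))
    (fun r hr => (h.dφ r (key r hr)).sub
      ((hasDerivAt_id r).sub (((hasDerivAt_id r).pow 2).div_const 2)))
    (fun r hr => by
      have := kb r (Ioo_subset_Icc_self hr)
      norm_num
      linarith)
    (left_mem_Icc.2 h0) (right_mem_Icc.2 h0) h0
  simp only [h.φ0] at this
  norm_num at this
  linarith

/-- the curvature has a zero before the time `1 + 9 / δ` -/
theorem exists_zero (h : Sol c μ S φ k W Z x y) (hc : 0 ≤ c) {δ : ℝ} (hδ : 0 < δ)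
    (hδ1 : δ ≤ 3 / 10) (hμ0 : c * S ≤ μ) (hμ : 2 * μ + δ + c * S ≤ 1) (hcS2 : c * S * S ≤ 1)
    (hcS : c * S ≤ 1 / 8) (hS : 1 + 9 / δ ≤ S) : ∃ s, 0 ≤ s ∧ s ≤ 1 + 9 / δ ∧ k s ≤ 0 := by
  by_contra hcon
  push Not at hcon
  set T := 1 + 9 / δ with hT
  have h9 : 0 < 9 / δ := by positivity
  have hT1 : 1 ≤ T := by linarith
  have hT0 : 0 ≤ T := by linarith
  have hS0 : 0 ≤ S := by linarith
  have hcS0 : 0 ≤ c * S := mul_nonneg hc hS0
  have key : ∀ r ∈ Icc 0 T, |r| ≤ S := fun r hr => abs_le_of hr.1 (hr.2.trans hS)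
  have hkr : ∀ r, r ≤ T → ∀ q ∈ Ico 0 r, 0 < k q := fun r hr q hq =>
    hcon q hq.1 (hq.2.le.trans hr)
  -- upper bound for y
  have up := mono (a := 0) (b := T)
    (f := fun r => c * S * r - 2 * k r - (1 - μ - c * S) * y r)
    (f' := fun r => c * S * 1 - 2 * (-(Z r * sin (φ r) + W r * cos (φ r)) / 2)
      - (1 - μ - c * S) * sin (φ r))
    (fun r hr => (((hasDerivAt_id r).const_mul (c * S)).sub
      ((h.dk r (key r hr)).const_mul 2)).sub ((h.dy r (key r hr)).const_mul _))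
    (fun r hr => by
      have hrS : r ≤ S := hr.2.le.trans hS
      obtain ⟨z1, z2⟩ := Z_bd h hc hr.1.le hrS
      obtain ⟨w1, w2⟩ := W_bd h hc hr.1.le hrS
      obtain ⟨p0, p1⟩ := phi_bd h hc (by linarith) hr.1.le hrS (hkr r hr.2.le)
      have hcr : c * r ≤ c * S := mul_le_mul_of_nonneg_left hrS hc
      have hs : 0 ≤ sin (φ r) := sin_nonneg_of_nonneg_of_le_pi p0 p1.le
      have e1 : (1 - μ - c * S) * sin (φ r) ≤ Z r * sin (φ r) :=
        mul_le_mul_of_nonneg_right (by linarith) hs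
      have e2 : -(c * S) ≤ W r * cos (φ r) := by
        nlinarith [neg_one_le_cos (φ r)]
      linarith)
    (left_mem_Icc.2 hT0) (right_mem_Icc.2 hT0) hT0
  simp only [h.k0, h.y0] at up
  have hkT := hcon T hT0 le_rfl
  have hcT : c * S * T ≤ 1 := by
    refine le_trans (mul_le_mul_of_nonneg_left hS hcS0) hcS2
  have y8 : y T ≤ 8 := by
    by_contra h8
    push Not at h8
    nlinarith
  -- lower bound for y
  have y1 := mono (a := 0) (b := 1) (fun r hr => h.dy r (key r ⟨hr.1, hr.2.trans hT1⟩))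
    (fun r hr => by
      have hrS : r ≤ S := hr.2.le.trans (hT1.trans hS)
      obtain ⟨p0, p1⟩ := phi_bd h hc (by linarith) hr.1.le hrS (hkr r (hr.2.le.trans hT1))
      exact sin_nonneg_of_nonneg_of_le_pi p0 p1.le)
    (left_mem_Icc.2 zero_le_one) (right_mem_Icc.2 zero_le_one) zero_le_one
  rw [h.y0] at y1
  have hφ1 : 1 / 2 ≤ φ 1 := by
    have := (k_low h hc hμ0 (by linarith) (by linarith) zero_le_one (hT1.trans hS)).2
    norm_num at this
    linarith
  have hφm := mono (a := 0) (b := T) (fun r hr => h.dφ r (key r hr))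
    (fun r hr => (hcon r hr.1.le hr.2.le).le)
  have low := mono (a := 1) (b := T) (f := fun r => y r - δ * r)
    (f' := fun r => sin (φ r) - δ * 1)
    (fun r hr => (h.dy r (key r ⟨zero_le_one.trans hr.1, hr.2⟩)).sub
      ((hasDerivAt_id r).const_mul δ))
    (fun r hr => by
      have hr0 : 0 ≤ r := by linarith [hr.1]
      have hrS : r ≤ S := hr.2.le.trans hS
      have hge : 1 / 2 ≤ φ r := hφ1.trans (hφm ⟨zero_le_one, hT1⟩ ⟨hr0, hr.2.le⟩ hr.1.le)
      rcases le_total (φ r) (π / 2) with hle | hle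
      · have := mul_le_sin (by linarith : 0 ≤ φ r) hle
        have e1 : (3 : ℝ) / 10 ≤ 2 / π * (1 / 2) := by
          rw [div_mul_eq_mul_div, div_le_div_iff₀ (by norm_num) pi_pos]
          linarith [pi_lt_d2]
        have e2 : 2 / π * (1 / 2) ≤ 2 / π * φ r := mul_le_mul_of_nonneg_left hge (by positivity)
        linarith
      · have := sin_bd h hc hδ (by linarith) hμ0 hμ hr0 hrS (hkr r hr.2.le) hle
        linarith)
    (left_mem_Icc.2 hT1) (right_mem_Icc.2 hT1) hT1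
  simp only at low
  have : δ * T = δ + 9 := by rw [hT]; field_simp
  linarith

/-- The first zero of the curvature. -/
structure Zero (c μ S l : ℝ) (φ k W Z x : ℝ → ℝ) : Prop where
  pos : 0 < l
  lt : l < S
  k_l : k l = 0
  k_pos : ∀ s ∈ Ico 0 l, 0 < k s
  k_le : ∀ s ∈ Icc 0 l, k s ≤ 1
  phi : ∀ s ∈ Icc 0 l, 0 ≤ φ s ∧ φ s < π
  anti : AntitoneOn k (Icc 0 l)
  dneg : 0 < Z l * sin (φ l) + W l * cos (φ l)

theorem exists_first (h : Sol c μ S φ k W Z x y) (hc : 0 ≤ c) {δ κ : ℝ} (hδ : 0 < δ)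
    (hδ1 : δ ≤ 3 / 10) (hμ0 : c * S ≤ μ) (hμ : 2 * μ + δ + c * S ≤ 1) (hcS2 : c * S * S ≤ 1)
    (hκ : 0 < κ) (hκ1 : κ ≤ 3 / 10) (hκμ : 2 * μ + κ + c * S ≤ 1) (hcSκ : 4 * (c * S) < κ)
    (hS : 1 + 9 / δ < S) : ∃ l, l ≤ 1 + 9 / δ ∧ Zero c μ S l φ k W Z x := by
  have hcS8 : c * S ≤ 1 / 8 := by linarith
  obtain ⟨s, hs0, hsT, hks⟩ := exists_zero h hc hδ hδ1 hμ0 hμ hcS2 hcS8 hS.le
  have h9 : 0 < 9 / δ := by positivity
  have key : ∀ r ∈ Icc 0 s, |r| ≤ S := fun r hr => abs_le_of hr.1 ((hr.2.trans hsT).trans hS.le)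
  have hcont : ContinuousOn k (Icc 0 s) := fun r hr =>
    (h.dk r (key r hr)).continuousAt.continuousWithinAt
  -- first zero
  set A : Set ℝ := {r ∈ Icc 0 s | k r ≤ 0} with hA
  have hAc : IsClosed A := by
    have : A = Icc 0 s ∩ k ⁻¹' Iic 0 := by ext r; simp [hA]
    rw [this]
    exact hcont.preimage_isClosed_of_isClosed isClosed_Icc isClosed_Iic
  have hAne : A.Nonempty := ⟨s, ⟨hs0, le_rfl⟩, hks⟩
  have hAb : BddBelow A := ⟨0, fun r hr => hr.1.1⟩
  set l := sInf A with hl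
  have hlA : l ∈ A := hAc.csInf_mem hAne hAb
  have hpos : ∀ r ∈ Ico 0 l, 0 < k r := by
    intro r hr
    by_contra hcon
    push Not at hcon
    have : l ≤ r := csInf_le hAb ⟨⟨hr.1, hr.2.le.trans hlA.1.2⟩, hcon⟩
    exact absurd hr.2 (not_lt.2 this)
  have hl0 : 0 < l := by
    rcases hlA.1.1.lt_or_eq with h' | h'
    · exact h'
    · have := hlA.2
      rw [← h', h.k0] at this
      norm_num at this
  have hlS : l < S := lt_of_le_of_lt (hlA.1.2.trans hsT) hS
  have hkl : k l = 0 := by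
    refine le_antisymm hlA.2 ?_
    have hcl : ContinuousWithinAt k (Iio l) l :=
      ((h.dk l (key l hlA.1)).continuousAt).continuousWithinAt
    refine ge_of_tendsto hcl ?_
    filter_upwards [Ioo_mem_nhdsLT hl0] with r hr
    exact (hpos r ⟨hr.1.le, hr.2⟩).le
  have hanti : AntitoneOn k (Icc 0 l) := by
    have := mono (a := 0) (b := l) (f := fun r => -k r)
      (f' := fun r => -(-(Z r * sin (φ r) + W r * cos (φ r)) / 2))
      (fun r hr => (h.dk r (key r ⟨hr.1, hr.2.trans hlA.1.2⟩)).neg)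
      (fun r hr => by
        have := dk_neg h hc hκ (by linarith) hμ0 hκμ hcSκ hr.1 (hr.2.le.trans hlS.le)
          (fun q hq => hpos q ⟨hq.1, hq.2.trans hr.2⟩)
        linarith)
    intro a ha b hb hab
    have := this ha hb hab
    simpa using this
  refine ⟨l, hlA.1.2.trans hsT, hl0, hlS, hkl, hpos, fun r hr => ?_, fun r hr => ?_, hanti,
    dk_neg h hc hκ (by linarith) hμ0 hκμ hcSκ hl0 hlS.le hpos⟩
  · have := hanti (left_mem_Icc.2 hl0.le) hr hr.1
    rwa [h.k0] at this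
  · exact phi_bd h hc (by linarith) hr.1 (hr.2.trans hlS.le) fun q hq => hpos q ⟨hq.1, lt_of_lt_of_le hq.2 hr.2⟩

end Pool.Agent.W785.EN
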