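import Pool.Agent.W785.EN.Est2

/-!
# Elastic flow of planar networks: signs of `x` at the first zero of the curvature
-/

set_option autoImplicit false

open Set Filter Topology Real

namespace Pool.Agent.W785.EN

variable {c μ S l : ℝ} {φ k W Z x y : ℝ → ℝ}

/-- `|k² - μ - (1 - μ) cos φ| ≤ 2 c S` -/
theorem ksq (h : Sol c μ S φ k W Z x y) (hc : 0 ≤ c) {s : ℝ} (h0 : 0 ≤ s) (h1 : s ≤ S) :
    k s ^ 2 - μ - 2 * (c * S) ≤ (1 - μ) * cos (φ s) ∧
      (1 - μ) * cos (φ s) ≤ k s ^ 2 - μ + 2 * (c * S) := by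
  have hE := energy h h0 h1
  obtain ⟨z1, z2⟩ := Z_bd h hc h0 h1
  obtain ⟨w1, w2⟩ := W_bd h hc h0 h1
  have hcs : c * s ≤ c * S := mul_le_mul_of_nonneg_left h1 hc
  have e1 : |(Z s - (1 - μ)) * cos (φ s)| ≤ c * S := by
    rw [abs_mul]
    calc _ ≤ (c * S) * 1 := mul_le_mul (abs_le.2 ⟨by linarith, by linarith⟩) (abs_cos_le_one _)
          (abs_nonneg _) (mul_nonneg hc (h0.trans h1))
      _ = _ := mul_one _
  have e2 : |W s * sin (φ s)| ≤ c * S := by
    rw [abs_mul]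
    calc _ ≤ (c * S) * 1 := mul_le_mul (abs_le.2 ⟨by linarith, by linarith⟩) (abs_sin_le_one _)
          (abs_nonneg _) (mul_nonneg hc (h0.trans h1))
      _ = _ := mul_one _
  rw [abs_le] at e1 e2
  constructor <;> nlinarith

/-- upper bound for `x` at the zero -/
theorem x_up (h : Sol c μ S φ k W Z x y) (hc : 0 ≤ c) (hz : Zero c μ S l φ k W Z x) :
    (1 - μ) * x l ≤ π - μ * l + 2 * (c * S) * l := by
  have hm := mono (a := 0) (b := l)
    (f := fun r => φ r - μ * r + 2 * (c * S) * r - (1 - μ) * x r)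
    (f' := fun r => k r - μ * 1 + 2 * (c * S) * 1 - (1 - μ) * cos (φ r))
    (fun r hr => (((h.dφ r (abs_le_of hr.1 (hr.2.trans hz.lt.le))).sub
      ((hasDerivAt_id r).const_mul μ)).add ((hasDerivAt_id r).const_mul (2 * (c * S)))).sub
      ((h.dx r (abs_le_of hr.1 (hr.2.trans hz.lt.le))).const_mul (1 - μ)))
    (fun r hr => by
      have h1 := (ksq h hc hr.1.le (hr.2.le.trans hz.lt.le)).2
      have h2 := hz.k_pos r ⟨hr.1.le, hr.2⟩
      have h3 := hz.k_le r (Ioo_subset_Icc_self hr)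
      nlinarith)
    (left_mem_Icc.2 hz.pos.le) (right_mem_Icc.2 hz.pos.le) hz.pos.le
  simp only [h.φ0, h.x0] at hm
  have := (hz.phi l (right_mem_Icc.2 hz.pos.le)).2
  linarith

/-- lower bound for `x` at the zero -/
theorem x_low (h : Sol c μ S φ k W Z x y) (hc : 0 ≤ c) (hμ0 : c * S ≤ μ) (hcS : c * S ≤ 1 / 2)
    (hμ1 : 2 * μ ≤ 1) (hz : Zero c μ S l φ k W Z x) :
    1 / 3 - μ * l - 2 * (c * S) * l ≤ (1 - μ) * x l := by
  have hl1 : 1 ≤ l := by
    by_contra hcon
    push Not at hcon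
    have := (k_low h hc hμ0 hcS hμ1 hz.pos.le hz.lt.le).1
    rw [hz.k_l] at this
    linarith
  have hd : ∀ r ∈ Icc 0 l, HasDerivAt (fun r => (1 - μ) * x r + μ * r + 2 * (c * S) * r)
      ((1 - μ) * cos (φ r) + μ * 1 + 2 * (c * S) * 1) r := fun r hr =>
    (((h.dx r (abs_le_of hr.1 (hr.2.trans hz.lt.le))).const_mul (1 - μ)).add
      ((hasDerivAt_id r).const_mul μ)).add ((hasDerivAt_id r).const_mul (2 * (c * S)))
  have m1 := mono (a := 0) (b := 1)
    (f := fun r => ((1 - μ) * x r + μ * r + 2 * (c * S) * r) - (-((1 - r) ^ 3 / 3)))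
    (f' := fun r => ((1 - μ) * cos (φ r) + μ * 1 + 2 * (c * S) * 1) - (1 - r) ^ 2)
    (fun r hr => by
      refine (hd r ⟨hr.1, hr.2.trans hl1⟩).sub ?_
      have := ((((hasDerivAt_id r).const_sub 1).pow 3).div_const 3).neg
      refine this.congr_deriv ?_
      simp only [id, Nat.cast_ofNat]
      ring)
    (fun r hr => by
      have h1 := (ksq h hc hr.1.le (hr.2.le.trans (hl1.trans hz.lt.le))).1
      have h2 := (k_low h hc hμ0 hcS hμ1 hr.1.le (hr.2.le.trans (hl1.trans hz.lt.le))).1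
      have h3 : (1 - r) ^ 2 ≤ k r ^ 2 := by
        apply pow_le_pow_left₀ (by linarith [hr.2]) h2
      linarith)
    (left_mem_Icc.2 zero_le_one) (right_mem_Icc.2 zero_le_one) zero_le_one
  have m2 := mono (a := 1) (b := l)
    (f' := fun r => ((1 - μ) * cos (φ r) + μ * 1 + 2 * (c * S) * 1))
    (fun r hr => hd r ⟨by linarith [hr.1], hr.2⟩)
    (fun r hr => by
      have h1 := (ksq h hc (by linarith [hr.1]) (hr.2.le.trans hz.lt.le)).1
      nlinarith [sq_nonneg (k r)])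
    (left_mem_Icc.2 hl1) (right_mem_Icc.2 hl1) hl1
  simp only [h.x0] at m1 m2
  norm_num at m1 m2
  linarith

/-- near `μ = 1 / 2` the first zero is at least `8` -/
theorem l_ge (h : Sol c μ S φ k W Z x y) (hc : 0 ≤ c) (hμ : μ = 1 / 2 - 1 / 10 ^ 5)
    (hcS : c * S ≤ 1 / 10 ^ 14) (hz : Zero c μ S l φ k W Z x) : 8 ≤ l := by
  by_contra hcon
  push Not at hcon
  have hl0 := hz.pos.le
  have hcS0 : 0 ≤ c * S := mul_nonneg hc (hl0.trans hz.lt.le)
  have hm := mono (a := 0) (b := l)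
    (f := fun r => (π - φ r + 2 / 10 ^ 7) * exp (51 / 100 * r))
    (f' := fun r => (-k r) * exp (51 / 100 * r) +
      (π - φ r + 2 / 10 ^ 7) * (exp (51 / 100 * r) * (51 / 100 * 1)))
    (fun r hr => by
      have h1 := (((h.dφ r (abs_le_of hr.1 (hr.2.trans hz.lt.le))).const_sub π).add_const
        (2 / 10 ^ 7 : ℝ))
      exact h1.mul ((hasDerivAt_id r).const_mul (51 / 100 : ℝ)).exp)
    (fun r hr => by
      have h1 := (ksq h hc hr.1.le (hr.2.le.trans hz.lt.le)).1
      obtain ⟨p0, p1⟩ := hz.phi r (Ioo_subset_Icc_self hr)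
      have hcos : -cos (φ r) ≥ 1 - (π - φ r) ^ 2 / 2 := by
        rw [← cos_pi_sub]
        exact one_sub_sq_div_two_le_cos
      have h3 := hz.k_pos r ⟨hr.1.le, hr.2⟩
      set ψ := π - φ r with hψ
      have hψ0 : 0 < ψ := by linarith
      have hk2 : k r ^ 2 ≤ (51 / 100 * ψ + 1 / 10 ^ 7) ^ 2 := by
        have e1 : (1 - μ) * cos (φ r) ≤ (1 - μ) * (ψ ^ 2 / 2 - 1) := by
          apply mul_le_mul_of_nonneg_left (by linarith)
          rw [hμ]; norm_num
        rw [hμ] at h1 e1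
        nlinarith
      have hk : k r ≤ 51 / 100 * ψ + 1 / 10 ^ 7 := by
        exact le_of_sq_le_sq hk2 (by positivity)
      have he := exp_pos (51 / 100 * r)
      have : 0 ≤ (-k r + (ψ + 2 / 10 ^ 7) * (51 / 100)) * exp (51 / 100 * r) := by
        apply mul_nonneg _ he.le
        norm_num at hk ⊢
        linarith
      nlinarith)
    (left_mem_Icc.2 hl0) (right_mem_Icc.2 hl0) hl0
  simp only [h.φ0] at hm
  norm_num at hm
  -- exp (51/100 l) ≤ 150
  have hexp : exp (51 / 100 * l) ≤ 150 := by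
    have e1 : exp (51 / 100 * l) ≤ exp 5 := exp_le_exp.2 (by linarith)
    have e2 : exp 5 = exp 1 ^ 5 := by rw [← exp_nat_mul]; norm_num
    have e3 : exp 1 ^ 5 ≤ (2.7182818286 : ℝ) ^ 5 :=
      pow_le_pow_left₀ (exp_pos 1).le exp_one_lt_d9.le 5
    have e4 : (2.7182818286 : ℝ) ^ 5 ≤ 150 := by norm_num
    linarith
  have hψ : 1 / 100 * 1.9 ≤ π - φ l := by
    have hpi := pi_gt_three
    have he := exp_pos (51 / 100 * l)
    by_contra hc2
    push Not at hc2
    nlinarith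
  -- lower bound for the curvature
  have h2 := (ksq h hc hl0 hz.lt.le).2
  obtain ⟨p0, p1⟩ := hz.phi l (right_mem_Icc.2 hl0)
  have hcos : -cos (φ l) ≤ 1 - 2 / π ^ 2 * (π - φ l) ^ 2 := by
    rw [← cos_pi_sub]
    apply cos_le_one_sub_mul_cos_sq
    rw [abs_of_pos (by linarith)]
    linarith
  rw [hz.k_l] at h2
  have hpi : π ^ 2 ≤ 10 := by nlinarith [pi_lt_d2, pi_pos]
  have e5 : (1 : ℝ) / 5 * (1 / 100 * 1.9) ^ 2 ≤ 2 / π ^ 2 * (π - φ l) ^ 2 := by
    apply mul_le_mul _ (pow_le_pow_left₀ (by norm_num) hψ 2) (by positivity) (by positivity)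
    rw [div_le_div_iff₀ (by norm_num) (by positivity)]
    linarith
  rw [hμ] at h2
  norm_num at h2 e5 hcS
  nlinarith

/-- the remaining facts at the zero -/
theorem zero_facts (h : Sol c μ S φ k W Z x y) (hc : 0 < c) (hμ : c * S < μ)
    (hz : Zero c μ S l φ k W Z x) : 0 < W l ∧ cos (φ l) ≠ 0 := by
  have hl0 := hz.pos
  constructor
  · set s₀ := min l 1 with hs₀
    have hs0 : 0 < s₀ := lt_min hl0 one_pos
    have hsl : s₀ ≤ l := min_le_left _ _
    have hs1 : s₀ ≤ 1 := min_le_right _ _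
    have hφ : ∀ r ∈ Icc 0 s₀, φ r ≤ r := by
      intro r hr
      have := mono (a := 0) (b := r) (f := fun q => q - φ q) (f' := fun q => 1 - k q)
        (fun q hq => (hasDerivAt_id q).sub
          (h.dφ q (abs_le_of hq.1 ((hq.2.trans (hr.2.trans hsl)).trans hz.lt.le))))
        (fun q hq => by
          have := hz.k_le q ⟨hq.1.le, hq.2.le.trans (hr.2.trans hsl)⟩
          linarith)
        (left_mem_Icc.2 hr.1) (right_mem_Icc.2 hr.1) hr.1
      simp only [h.φ0] at this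
      linarith
    have h1 := mono (a := 0) (b := s₀) (f := fun r => W r - c / 4 * r)
      (f' := fun r => c * cos (φ r) ^ 2 - c / 4 * 1)
      (fun r hr => (h.dW r (abs_le_of hr.1 ((hr.2.trans hsl).trans hz.lt.le))).sub
        ((hasDerivAt_id r).const_mul (c / 4)))
      (fun r hr => by
        have p0 := (hz.phi r ⟨hr.1.le, hr.2.le.trans hsl⟩).1
        have p1 := hφ r (Ioo_subset_Icc_self hr)
        have : 1 - φ r ^ 2 / 2 ≤ cos (φ r) := one_sub_sq_div_two_le_cos
        have h2 : φ r ^ 2 ≤ 1 := by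
          have : φ r ≤ 1 := p1.trans (hr.2.le.trans hs1)
          nlinarith
        have h3 : 1 / 2 ≤ cos (φ r) := by linarith
        have h4 : 1 / 4 ≤ cos (φ r) ^ 2 := by nlinarith
        nlinarith)
      (left_mem_Icc.2 hs0.le) (right_mem_Icc.2 hs0.le) hs0.le
    simp only [h.W0] at h1
    have h2 := mono (a := s₀) (b := l)
      (fun r hr => h.dW r (abs_le_of (hs0.le.trans hr.1) (hr.2.trans hz.lt.le)))
      (fun r _ => mul_nonneg hc.le (sq_nonneg _)) (left_mem_Icc.2 hsl) (right_mem_Icc.2 hsl) hsl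
    nlinarith [mul_pos hc hs0]
  · intro hcos
    have hE := energy h hl0.le hz.lt.le
    rw [hz.k_l, hcos] at hE
    obtain ⟨w1, w2⟩ := W_bd h hc.le hl0.le hz.lt.le
    have hcs : c * l ≤ c * S := mul_le_mul_of_nonneg_left hz.lt.le hc.le
    have : W l * sin (φ l) ≤ W l := by nlinarith [sin_le_one (φ l)]
    nlinarith

end Pool.Agent.W785.EN
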