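import Pool.Agent.W785.EN.Stms

set_option autoImplicit false

open Set Filter Topology Real
open scoped ContDiff

namespace Pool.Agent.W785.EN

theorem smooth : S_smooth := by
  intro c μ S φ k W Z x y hS h
  let F : ℝ × ℝ × ℝ × ℝ × ℝ × ℝ → ℝ × ℝ × ℝ × ℝ × ℝ × ℝ := fun v =>
    (v.2.1, -(v.2.2.2.1 * sin v.1 + v.2.2.1 * cos v.1) / 2, c * cos v.1 ^ 2,
      c * (sin v.1 * cos v.1), cos v.1, sin v.1)
  let α : ℝ → ℝ × ℝ × ℝ × ℝ × ℝ × ℝ := fun s => (φ s, k s, W s, Z s, x s, y s)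
  have hF : ContDiff ℝ ∞ (Function.uncurry fun _ : ℝ => F) := by
    have : (Function.uncurry fun _ : ℝ => F) = fun p : ℝ × (ℝ × ℝ × ℝ × ℝ × ℝ × ℝ) => F p.2 := by
      ext p <;> rfl
    rw [this]
    simp only [F]
    fun_prop
  have hα : ContDiffOn ℝ ∞ α (Icc (-S) S) := by
    refine ODE.contDiffOn_enat_Icc_of_hasDerivWithinAt (f := fun _ => F) (n := ⊤) (u := univ)
      (hF.contDiffOn) (fun t ht => ?_) (mapsTo_univ _ _)
    have ht' : |t| ≤ S := abs_le.2 ht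
    exact ((h.dφ t ht').prodMk ((h.dk t ht').prodMk ((h.dW t ht').prodMk ((h.dZ t ht').prodMk
      ((h.dx t ht').prodMk (h.dy t ht')))))).hasDerivWithinAt
  refine ⟨contDiff_fst.comp_contDiffOn hα,
    (contDiff_fst.comp_contDiffOn (contDiff_snd.comp_contDiffOn (contDiff_snd.comp_contDiffOn
      (contDiff_snd.comp_contDiffOn (contDiff_snd.comp_contDiffOn hα))))),
    (contDiff_snd.comp_contDiffOn (contDiff_snd.comp_contDiffOn (contDiff_snd.comp_contDiffOn
      (contDiff_snd.comp_contDiffOn (contDiff_snd.comp_contDiffOn hα)))))⟩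

end Pool.Agent.W785.EN
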