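import Pool.Agent.W785.EN.Shoot
import Pool.Agent.W785.EN.Smooth
import Pool.Agent.W554.EN.Flow
import Pool.Agent.W646.EN.Sym

set_option autoImplicit false

open Set Filter Topology

namespace Pool.Agent.W785.EN

theorem main_of (hb : S_build) (hl : S_len) (hn : S_noext) (T : ℝ) (hT : 0 < T) :
    ∃ (N M : ℕ) (G : NetType N M) (μ : Fin N → ℝ) (γ : Fin N → ℝ → ℝ → ℂ) (i : Fin N),
      (∀ v, G.kind v ≠ Kind.clamped) ∧ (∀ j, 0 < μ j) ∧ IsElasticFlow G μ T γ ∧
      (∃ c > 0, ∀ t ∈ Ico 0 T, length (γ i t) = c * (T - t)) ∧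
      Tendsto (fun t => length (γ i t)) (𝓝[<] T) (𝓝 0) ∧
      ∀ T' > T, ∀ γ' : Fin N → ℝ → ℝ → ℂ, IsElasticFlow G μ T' γ' →
        ¬ ∀ t ∈ Ico 0 T, length (γ' i t) = length (γ i t) := by
  obtain ⟨c, μ, S, l, φ, k, W, Z, x, y, hd⟩ := drop_of_flow Pool.Agent.W554.EN.main
  have hflow := hb Pool.Agent.W646.EN.main smooth c μ S l φ k W Z x y hd T hT
  have hlen : ∀ t ∈ Ico 0 T, length (dropCurve c T l x y 1 t) = c * (T - t) := fun t ht =>
    hl c T l x y hd.c_pos t ht.2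
  have htend : Tendsto (fun t => length (dropCurve c T l x y 1 t)) (𝓝[<] T) (𝓝 0) := by
    have h1 : Tendsto (fun t => c * (T - t)) (𝓝[<] T) (𝓝 0) := by
      have : Tendsto (fun t => c * (T - t)) (𝓝 T) (𝓝 (c * (T - T))) := by
        apply Continuous.tendsto
        fun_prop
      rw [sub_self, mul_zero] at this
      exact this.mono_left nhdsWithin_le_nhds
    refine h1.congr' ?_
    filter_upwards [Ioo_mem_nhdsLT hT] with t ht
    exact (hlen t ⟨ht.1.le, ht.2⟩).symm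
  refine ⟨2, 2, lolly, _, _, 1, ?_, ?_, hflow, ⟨c, hd.c_pos, hlen⟩, htend, ?_⟩
  · intro v
    simp only [lolly]
    split_ifs <;> simp
  · intro j
    split_ifs
    · exact hd.μ_pos
    · have := hd.W_l
      linarith
  · intro T' hT' γ' hγ' hcon
    refine hn 2 2 lolly _ T T' γ' hT hT' hγ' 1 ?_
    refine htend.congr' ?_
    filter_upwards [Ioo_mem_nhdsLT hT] with t ht
    exact (hcon t ⟨ht.1.le, ht.2⟩).symm

end Pool.Agent.W785.EN
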