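import Pool.Agent.W785.EN.Est3

/-!
# Elastic flow of planar networks: the shooting argument
-/

set_option autoImplicit false

open Set Filter Topology Real

namespace Pool.Agent.W785.EN

theorem drop_of_flow (hflow : S_flow) : S_drop := by
  set S : ℝ := 10 ^ 6 with hS
  set c : ℝ := 1 / 10 ^ 20 with hc
  have hc0 : 0 < c := by rw [hc]; norm_num
  have hcS : c * S = 1 / 10 ^ 14 := by rw [hc, hS]; norm_num
  obtain ⟨φ, k, W, Z, x, y, hsol, L, hL0, hL⟩ := hflow c S hc0.le (by rw [hS]; norm_num)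
    (by rw [hcS]; norm_num)
  obtain ⟨μ₁, hμ₁⟩ : ∃ m : ℝ, m = 1 / 200 := ⟨_, rfl⟩
  obtain ⟨μ₂, hμ₂⟩ : ∃ m : ℝ, m = 1 / 2 - 1 / 10 ^ 5 := ⟨_, rfl⟩
  have h12 : μ₁ ≤ μ₂ := by rw [hμ₁, hμ₂]; norm_num
  have hI : ∀ μ ∈ Icc μ₁ μ₂, μ ∈ Icc (0 : ℝ) 1 := fun μ hμ => by
    refine ⟨?_, ?_⟩
    · have := hμ.1; rw [hμ₁] at this; linarith
    · have := hμ.2; rw [hμ₂] at this; norm_num at this; linarith
  have hS0 : 0 < S := by rw [hS]; norm_num
  -- the zeros
  have hz : ∀ μ ∈ Icc μ₁ μ₂, ∃ l, Zero c μ S l (φ μ) (k μ) (W μ) (Z μ) (x μ) := by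
    intro μ hμ
    have a1 := hμ.1
    have a2 := hμ.2
    rw [hμ₁] at a1
    rw [hμ₂] at a2
    obtain ⟨l, _, hl⟩ := exists_first (hsol μ (hI μ hμ)) hc0.le (δ := 1 / 10 ^ 5)
      (κ := 1 / 10 ^ 5) (by norm_num) (by norm_num) (by rw [hcS]; norm_num; linarith)
      (by rw [hcS]; norm_num at a2 ⊢; linarith) (by rw [hcS, hS]; norm_num) (by norm_num)
      (by norm_num) (by rw [hcS]; norm_num at a2 ⊢; linarith) (by rw [hcS]; norm_num)
      (by rw [hS]; norm_num)
    exact ⟨l, hl⟩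
  choose! l hl using hz
  -- continuity
  have hcont : ContinuousOn (fun μ => x μ (l μ)) (Icc μ₁ μ₂) := by
    have hlc : ContinuousOn l (Icc μ₁ μ₂) := by
      intro μ hμ
      rw [Metric.continuousWithinAt_iff]
      intro η hη
      have z := hl μ hμ
      have s := hsol μ (hI μ hμ)
      -- a lower level
      obtain ⟨m1, hm1, hlow⟩ : ∃ m > 0, ∀ r ∈ Icc 0 (l μ - η), m ≤ k μ r := by
        rcases le_or_gt 0 (l μ - η) with h0 | h0
        · refine ⟨k μ (l μ - η), z.k_pos _ ⟨h0, by linarith⟩, fun r hr => ?_⟩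
          exact z.anti ⟨hr.1, by linarith [hr.2]⟩ ⟨h0, by linarith⟩ hr.2
        · exact ⟨1, one_pos, fun r hr => absurd (hr.1.trans hr.2) (not_le.2 h0)⟩
      -- a point with negative curvature
      obtain ⟨r1, hr1, hr2, hr3, hneg⟩ : ∃ r1, l μ < r1 ∧ r1 < l μ + η ∧ r1 < S ∧ k μ r1 < 0 := by
        have hd := s.dk (l μ) (abs_le_of z.pos.le z.lt.le)
        have hd' : -(Z μ (l μ) * sin (φ μ (l μ)) + W μ (l μ) * cos (φ μ (l μ))) / 2 < 0 := by
          have := z.dneg
          linarith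
        have hev : ∀ᶠ r in 𝓝[>] (l μ), k μ r < 0 := by
          have h1 := (hasDerivAt_iff_tendsto_slope.1 hd).eventually (gt_mem_nhds hd')
          have h2 : ∀ᶠ r in 𝓝[>] (l μ), slope (k μ) (l μ) r < 0 :=
            h1.filter_mono (nhdsWithin_mono _ fun r hr => ne_of_gt hr)
          filter_upwards [h2, self_mem_nhdsWithin] with r hr hlr
          rw [slope_def_field, z.k_l, sub_zero] at hr
          have : 0 < r - l μ := sub_pos.2 hlr
          exact (div_neg_iff.1 hr).elim (fun h => absurd h.2 (not_lt.2 this.le)) fun h => h.1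
        have hev2 : ∀ᶠ r in 𝓝[>] (l μ), r < l μ + η :=
          (eventually_lt_nhds (by linarith)).filter_mono nhdsWithin_le_nhds
        have hev3 : ∀ᶠ r in 𝓝[>] (l μ), r < S :=
          (eventually_lt_nhds z.lt).filter_mono nhdsWithin_le_nhds
        obtain ⟨r, hr⟩ := (hev.and (hev2.and (hev3.and self_mem_nhdsWithin))).exists
        exact ⟨r, hr.2.2.2, hr.2.1, hr.2.2.1, hr.1⟩
      refine ⟨min (m1 / (L + 1)) (-k μ r1 / (L + 1)), lt_min (by positivity)
        (div_pos (by linarith) (by linarith)), fun ν hν hd => ?_⟩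
      have zν := hl ν hν
      rw [Real.dist_eq] at hd ⊢
      have d1 : L * |ν - μ| < m1 := by
        have := (hd.trans_le (min_le_left _ _))
        rw [lt_div_iff₀ (by linarith)] at this
        nlinarith [abs_nonneg (ν - μ)]
      have d2 : L * |ν - μ| < -k μ r1 := by
        have := (hd.trans_le (min_le_right _ _))
        rw [lt_div_iff₀ (by linarith)] at this
        nlinarith [abs_nonneg (ν - μ)]
      rw [abs_lt]
      constructor
      · by_contra hcon
        push Not at hcon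
        have hm := hlow (l ν) ⟨zν.pos.le, by linarith⟩
        have hk := (hL ν (hI ν hν) μ (hI μ hμ) (l ν) (abs_le_of zν.pos.le zν.lt.le)).1
        rw [zν.k_l, abs_le] at hk
        linarith [hk.1]
      · have hlt : l ν < r1 := by
          by_contra hcon
          push Not at hcon
          have hk := (hL ν (hI ν hν) μ (hI μ hμ) r1 (abs_le_of (z.pos.le.trans hr1.le) hr3.le)).1
          have hge : 0 ≤ k ν r1 := by
            rcases hcon.lt_or_eq with h' | h'
            · exact (zν.k_pos r1 ⟨z.pos.le.trans hr1.le, h'⟩).le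
            · rw [h', zν.k_l]
          rw [abs_le] at hk
          linarith [hk.2]
        linarith
    intro μ hμ
    rw [Metric.continuousWithinAt_iff]
    intro η hη
    have z := hl μ hμ
    have s := hsol μ (hI μ hμ)
    -- continuity of x μ at l μ
    have hxc : ContinuousAt (x μ) (l μ) := (s.dx _ (abs_le_of z.pos.le z.lt.le)).continuousAt
    rw [Metric.continuousAt_iff] at hxc
    obtain ⟨δ1, hδ1, hx1⟩ := hxc (η / 2) (by linarith)
    obtain ⟨δ2, hδ2, hl2⟩ := Metric.continuousWithinAt_iff.1 (hlc μ hμ) δ1 hδ1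
    refine ⟨min δ2 (η / 2 / (L + 1)), lt_min hδ2 (by positivity), fun ν hν hd => ?_⟩
    have zν := hl ν hν
    have e1 := hx1 (hl2 hν (hd.trans_le (min_le_left _ _)))
    have e2 := (hL ν (hI ν hν) μ (hI μ hμ) (l ν) (abs_le_of zν.pos.le zν.lt.le)).2
    have e3 : L * |ν - μ| < η / 2 := by
      have := (hd.trans_le (min_le_right _ _))
      rw [Real.dist_eq, lt_div_iff₀ (by linarith)] at this
      nlinarith [abs_nonneg (ν - μ)]
    rw [Real.dist_eq] at e1 ⊢
    calc |x ν (l ν) - x μ (l μ)| = |(x ν (l ν) - x μ (l ν)) + (x μ (l ν) - x μ (l μ))| := by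
          congr 1; ring
      _ ≤ |x ν (l ν) - x μ (l ν)| + |x μ (l ν) - x μ (l μ)| := abs_add_le _ _
      _ < η := by linarith
  -- signs
  have hm1 : μ₁ ∈ Icc μ₁ μ₂ := left_mem_Icc.2 h12
  have hm2 : μ₂ ∈ Icc μ₁ μ₂ := right_mem_Icc.2 h12
  have s1 : 0 < x μ₁ (l μ₁) := by
    have z := hl μ₁ hm1
    have s := hsol μ₁ (hI μ₁ hm1)
    obtain ⟨l', hl', z'⟩ := exists_first s hc0.le (δ := 3 / 10) (κ := 1 / 10 ^ 5)
      (by norm_num) (by norm_num) (by rw [hcS, hμ₁]; norm_num)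
      (by rw [hcS, hμ₁]; norm_num) (by rw [hcS, hS]; norm_num) (by norm_num)
      (by norm_num) (by rw [hcS, hμ₁]; norm_num) (by rw [hcS]; norm_num)
      (by rw [hS]; norm_num)
    have hll : l μ₁ ≤ l' := by
      by_contra hcon
      push Not at hcon
      have := z.k_pos l' ⟨z'.pos.le, hcon⟩
      rw [z'.k_l] at this
      exact lt_irrefl _ this
    have h1 := x_low s hc0.le (by rw [hcS, hμ₁]; norm_num) (by rw [hcS]; norm_num)
      (by rw [hμ₁]; norm_num) z
    rw [hcS] at h1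
    norm_num at hl'
    have hl31 : l μ₁ ≤ 31 := hll.trans hl'
    have hpos := z.pos
    rw [hμ₁] at h1 hl31 hpos ⊢
    by_contra hcon
    push Not at hcon
    nlinarith
  have s2 : x μ₂ (l μ₂) < 0 := by
    have z := hl μ₂ hm2
    have s := hsol μ₂ (hI μ₂ hm2)
    have h8 := l_ge s hc0.le hμ₂ hcS.le z
    have h1 := x_up s hc0.le z
    have hlS := z.lt
    rw [hcS] at h1
    have hpi := pi_lt_d2
    rw [hS] at hlS
    by_contra hcon
    push Not at hcon
    have hpos : 0 ≤ (1 - μ₂) * x μ₂ (l μ₂) := mul_nonneg (by rw [hμ₂]; norm_num) hcon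
    have h2 : μ₂ * 8 ≤ μ₂ * l μ₂ := mul_le_mul_of_nonneg_left h8 (by rw [hμ₂]; norm_num)
    have h3 : (3.99 : ℝ) ≤ μ₂ * 8 := by rw [hμ₂]; norm_num
    have h4 : 2 * (1 / 10 ^ 14 : ℝ) * l μ₂ ≤ 2 * (1 / 10 ^ 14) * 10 ^ 6 :=
      mul_le_mul_of_nonneg_left hlS.le (by norm_num)
    have h5 : 2 * (1 / 10 ^ 14 : ℝ) * 10 ^ 6 ≤ 1 / 10 := by norm_num
    linarith
  obtain ⟨μ, hμ, hx⟩ := intermediate_value_Icc' h12 hcont ⟨s2.le, s1.le⟩
  have z := hl μ hμ
  have s := hsol μ (hI μ hμ)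
  have hμ0 : 1 / 200 ≤ μ := hμ₁ ▸ hμ.1
  have hf := zero_facts s hc0 (by rw [hcS]; norm_num; linarith) z
  exact ⟨c, μ, S, l μ, φ μ, k μ, W μ, Z μ, x μ, y μ, s, hc0, by linarith, z.pos, z.lt, z.k_l, hx,
    hf.1, hf.2⟩

end Pool.Agent.W785.EN
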